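import Pool.Agent.H.MP_96d1d5_an.C

set_option autoImplicit false

namespace Pool.Agent.Results.MP_96d1d5_an.Yes

open Pool.Agent.H.MP_96d1d5_an
open scoped Manifold ContDiff

universe u v

/-- No quotient by a central subgroup is a finite-dimensional real Lie group. -/
def NotCentralExt (G : Type) [Group G] [TopologicalSpace G] : Prop :=
  ∀ (A : Subgroup G) [A.Normal], A ≤ Subgroup.center G →
    ∀ (E : Type u) [NormedAddCommGroup E] [NormedSpace ℝ E] [FiniteDimensional ℝ E]
      (L : Type v) [TopologicalSpace L] [ChartedSpace E L] [Group L] [LieGroup 𝓘(ℝ, E) ∞ L],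
      IsEmpty ((G ⧸ A) ≃ₜ* L)

theorem result : ∃ f ∈ Diff, (∃ x, Dense (Set.range fun n : ℤ => (f ^ n) x)) ∧
    NotCentralExt.{u, v} (Cent f) :=
  ⟨F, prod_mem f_mem f_mem, F_trans, fun A _ hA E _ _ _ L _ _ _ _ =>
    haveI := topologicalGroup_of_lieGroup 𝓘(ℝ, E) ∞ (G := L)
    haveI := ChartedSpace.locallyCompactSpace E L
    main A hA L⟩

end Pool.Agent.Results.MP_96d1d5_an.Yes
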